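import Mathlib
import Pool.Agent.TH170.GS.Main
import Pool.Agent.TH170.GS.TB
import Pool.Agent.Y1.KN.All
import Pool.Agent.Y1.KN.Use
import Pool.Agent.K3h9.SZ.Fin

/-!
# Soulé's formula for arithmetic schemes whose special fibres are generated by abelian varieties with
almost all slope types of all CM fields

Over an algebraic closure of the field with `p` elements each abelian variety is isogenous to the
reduction of an abelian variety of CM type (Honda, Tate). So an abelian variety over the field with
`p ^ a` elements is modelled by `RedAV`: a finite product of CM types `(E i, Φ i)` with Weil numbers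
`π i ∈ E i` that satisfy the formula of Shimura and Taniyama; its cohomology of degree `n`, with
coefficients in an algebraically closed field `Ω`, consists of the alternating `n`-forms on
`Ω ⊗ H_1`, on which the Frobenius endomorphism acts by `π`. We fix an isomorphism `ν` of the algebraic
closure of `ℚ_p` with `ℂ`; it defines a `p`-adic valuation of `ℂ`, with the value one at `p`.

Let `K i` be finitely many CM fields, of degrees `2 g i`, that are pairwise independent: for `i ≠ k`
and all complex embeddings `φ` of `K i` and `ψ` of `K k` some automorphism of `ℂ` is the identity on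
`φ (K i)` and the complex conjugation on `ψ (K k)` (this is no condition for one field). Nothing is
assumed about their Galois groups. Let `M i` be functions with nonzero integral values, all of which
divide `n i`, on the complex embeddings of `K i`, invariant under complex conjugation. A CM type
`Φ i` of `K i` (there are `2 ^ (g i)` types), `M i` and a real number `κ i ≠ 0` prescribe the slopes
`(a + κ M) / 2` (at the embeddings in `Φ i`) and `(a - κ M) / 2` (outside of `Φ i`) of a Weil number in
`K i`; `M = 1`, `κ = a` is the ordinary case.

There are `2 ^ (∑ i, g i)` families of CM types `Φ i` of the fields `K i`. For such a family let `𝒞`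
(`OfTypes`) be the class of the abelian varieties `Y` each of whose factors is supersingular or has a
Frobenius endomorphism some power of which is, for some `i`, a Weil number in `K i` with the slopes
prescribed by `Φ i`, `M i` and some real number `κ i ≠ 0` (which depends only on `Y` and `i`). So `Y`
is, over an algebraic closure, isogenous to a product of powers of one abelian variety for each `i`,
with the given slopes, and of a supersingular one.

`Arith W` are data for arithmetic schemes (separated schemes `X : W` of finite type over `ℤ`): the
rational motivic homology groups `M X i j = H_i^M(X, ℚ(j)) = CH_j(X, i - 2 j) ⊗ ℚ` and the numbers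
`pts X q` of the closed points with a residue field with `q` elements; the zeta function of `X` is the
meromorphic continuation of the Euler product of the `(1 - q ^ (-s)) ^ (- pts X q)` (`IsZeta`). For a
family of types let `𝒜` (`Class`) be the smallest class of arithmetic schemes that contains

* the schemes over finite fields of characteristic `p` in the class generated (`Generated`: direct
  summands of finite sums of twists of motives; all of `Z`, `X`, `X ∖ Z` if it contains two of them) by
  the abelian varieties in `𝒞`, and by schemes for which the conjecture of Tate and Beilinson is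
  known otherwise (`IsFibreOfTypes`),
* the schemes over finite fields of any characteristic for which the conjecture of Tate and Beilinson is
  known otherwise (`IsKnownFibre`; for instance, by the starting files, those generated by abelian
  varieties of dimension at most five, and all schemes of dimension at most one),
* the spectra of the rings of integers of all number fields (`IsNumberRing`),
* the schemes whose motive, with rational coefficients, plus a finite sum of twists of motives of members,
  is a finite sum of twists of motives of members (`IsSum`: affine and projective bundles, blow-ups),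
* all of a closed subscheme `Z` of `X`, `X` and `X ∖ Z` if it contains two of them.

A family of types is exceptional (`exceptionalFamilies ν K M`) if the following fails: for all `X` in
`𝒜` Soulé's formula holds at all integers (`Soule`): the groups `H_i^M(X, ℚ(n))` are
finite-dimensional, for each `n` only finitely many are not zero, the zeta function of `X` has a
meromorphic continuation to `ℂ`, and its order at the integer `n` is
`∑_i (-1) ^ (i + 1) dim H_i^M(X, ℚ(n))`; in particular for the regular, connected, flat and projective
members `X` of Krull dimension `d` the assertion of the question is true (`n = 0`;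
`H_i^M(X, ℚ(0)) = CH^d(X, i) ⊗ ℚ = H^(2 d - i)(X, ℚ(d))`):
`ord_(s = 0) ζ(X, s) = ∑_i (-1) ^ (i + 1) dim H^(2 d - i)(X, ℚ(d))`.

Known theorems that are used: for number rings Dirichlet, Quillen, Borel and Hecke, in `IsNumberRing`; for
schemes over finite fields Grothendieck, in `IsOverFinite`; for abelian varieties properties of the theory
of cycles (`IsChow`, `IsMotivic`): Poincaré duality, the formal properties of correspondences, the
nilpotence of homologically trivial correspondences (Kimura), the operation of the Frobenius
endomorphism on higher Chow groups, the vanishing of the higher rational `K`-groups of a finite field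
(Quillen), and the algebraicity of the classes in `Alg` (of which only products of classes of divisors
matter here, theorem of Tate). The passage from the Tate conjecture to all degrees and to the class
generated is due to Soulé, Geisser, Kahn and Jannsen.

The theorem bounds the number of the exceptional families: it is at most
`2 ^ (∑ i, g i) * ∑ i, C * (n i) ^ 2 * (1 + log (2 (g i))) ^ 16 * min (N ^ 2 * D ^ (1 / 4) / √g) (√g / q)`,
with an absolute constant `C`. Here `g = g i`, `q = q i` is any prime factor of `g i` (or `q i = 1`),
`N` is the number of the CM subfields of `K i` (with `K i`) and `D = D i ≥ 1` is a bound for the degrees of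
the CM subfields of `K i` that are normal over `ℚ` with a nonabelian Galois group (`D = 1` if there are
none, `D = 2 (g i)` is always possible).

So the exceptional types are a proportion `O (n ^ 2 * g ^ (-1 / 4) * (log g) ^ 16)` of all types of
all CM fields with a bounded number of CM subfields, and `O (n ^ 2 * g ^ (-δ) * (log g) ^ 16)` of the
types of all CM fields `K`, with any number of subfields, whose degree is divisible by a prime number
`q ≥ g ^ (1 / 2 + δ)`. The bound is a form of the one of the starting result
`MP_ee618e_ag.AllCMFields`.
-/

namespace Pool.Agent.Results.MP_f3836a_nt.AllCMFieldsInFibres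

open NumberField Module Pool.Agent.H204R3.CM Pool.Agent.H977R3.CM Pool.Agent.TH170 Pool.Agent.Y1.KN
  Pool.Agent.W495.TA Pool.Agent.W495.FM Pool.Agent.K3h9.SZ

/-- `X` is a scheme over a finite field of characteristic `p` in the class generated by the abelian
varieties with the slope types `Φ`, and by schemes for which the conjecture of Tate and Beilinson is
known otherwise. -/
def IsFibreOfTypes {p : ℕ} [Fact p.Prime] (ν : PadicAlgCl p ≃+* ℂ) {I : Type} (K : I → Type)
    [∀ i, Field (K i)] (M : ∀ i, (K i →+* ℂ) → ℤ) (Φ : ∀ i, Set (K i →+* ℂ)) {W : Type} (T : Arith W)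
    (X : W) : Prop :=
  ∃ (Ω : Type) (_ : Field Ω) (_ : IsAlgClosed Ω) (_ : CharZero Ω) (V : Type)
    (H : Homology Ω V) (Y : V), IsHomology H ∧
      Generated H (fun Y => GS.IsAbelianOfTypes ν K M Φ H Y ∨ TB H Y) Y ∧ IsOverFinite T H X Y

/-- `X` is a scheme over a finite field for which the conjecture of Tate and Beilinson is known. -/
def IsKnownFibre {W : Type} (T : Arith W) (X : W) : Prop :=
  ∃ (Ω : Type) (_ : Field Ω) (_ : CharZero Ω) (V : Type) (H : Homology Ω V) (Y : V), IsHomology H ∧
    TB H Y ∧ IsOverFinite T H X Y

/-- Soulé's formula for the class of arithmetic schemes generated by rings of integers and by the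
schemes over finite fields above. -/
def Holds {p : ℕ} [Fact p.Prime] (ν : PadicAlgCl p ≃+* ℂ) {I : Type} (K : I → Type)
    [∀ i, Field (K i)] (M : ∀ i, (K i →+* ℂ) → ℤ) (Φ : ∀ i, Set (K i →+* ℂ)) : Prop :=
  ∀ (W : Type) (T : Arith W), IsArith T → ∀ X : W,
    Class T (fun X => IsFibreOfTypes ν K M Φ T X ∨ IsKnownFibre T X) X → Soule T X

/-- The exceptional families of CM types. -/
def exceptionalFamilies {p : ℕ} [Fact p.Prime] (ν : PadicAlgCl p ≃+* ℂ) {I : Type} (K : I → Type)
    [∀ i, Field (K i)] (M : ∀ i, (K i →+* ℂ) → ℤ) : Set (∀ i, Set (K i →+* ℂ)) :=
  {Φ | (∀ i, IsCMType (Φ i)) ∧ ¬ Holds ν K M Φ}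

theorem holds_of {p : ℕ} [Fact p.Prime] {ν : PadicAlgCl p ≃+* ℂ} {I : Type} (K : I → Type)
    [∀ i, Field (K i)] (M : ∀ i, (K i →+* ℂ) → ℤ) (Φ : ∀ i, Set (K i →+* ℂ))
    (h : ∀ Y : RedAV p ν, GS.OfTypes K M Φ Y → ∃ Z : RedAV p ν,
      TH117.BL.HasElementaryRelations Z ∧ TH117.BL.IsPowersTimesSupersingular Z Y) :
    Holds ν K M Φ := by
  intro W T hT X hX
  have key : ∀ X, (IsFibreOfTypes ν K M Φ T X ∨ IsKnownFibre T X) → Soule T X := by
    rintro X (⟨Ω, _, _, _, V, H, Y, hH, hY, hX⟩ | ⟨Ω, _, _, V, H, Y, hH, hY, hX⟩)
    · refine soule_finite hH (tb_generated hH (fun Z hZ => ?_) hY) hX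
      rcases hZ with hZ | hZ
      · exact GS.tb_types h hH (Generated.base Z hZ)
      · exact hZ
    · exact soule_finite hH hY hX
  exact soule_class hT key hX

/-- **Soulé's formula for the arithmetic schemes generated by the rings of integers of number fields and
by abelian varieties over finite fields with almost all slope types of all CM fields with few CM
subfields, and of all CM fields whose degree has a large prime factor.** -/
theorem result :
    ∃ C : ℝ, 0 ≤ C ∧ ∀ (p : ℕ) [Fact p.Prime] (ν : PadicAlgCl p ≃+* ℂ) (I : Type) [Fintype I]
      (K : I → Type) [∀ i, Field (K i)] [∀ i, NumberField (K i)] [∀ i, IsCMField (K i)]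
      (M : ∀ i, (K i →+* ℂ) → ℤ) (n g q : I → ℕ) (D : I → ℝ), PairwiseIndep K →
      (∀ i φ, M i (ComplexEmbedding.conjugate φ) = M i φ) → (∀ i, n i ≠ 0) →
      (∀ i φ, M i φ ∣ (n i : ℤ)) → (∀ i, finrank ℚ (K i) = 2 * g i) →
      (∀ i, q i ∣ g i ∧ (q i = 1 ∨ (q i).Prime)) → (∀ i, 1 ≤ D i) →
      (∀ i, ∀ F : IntermediateField ℚ (K i), IsCMField F → IsGalois ℚ F → ¬ IsAbelianGalois ℚ F →
        (finrank ℚ F : ℝ) ≤ D i) →
      ((exceptionalFamilies ν K M).ncard : ℝ) ≤
        2 ^ (∑ i, g i) * ∑ i, C * (n i : ℝ) ^ 2 * ((1 + Real.log (2 * g i)) ^ 16 *
          min ((numCMSubfields (K i) : ℝ) ^ 2 * D i ^ (1 / 4 : ℝ) / √(g i)) (√(g i) / q i)) := by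
  obtain ⟨C, hC0, hC⟩ := slope families_holds
  refine ⟨C, hC0, ?_⟩
  intro p _ ν I _ K _ _ _ M n g q D hind hM hn hMn hg hq hD1 hD
  refine (hC p ν I K M n g q hind hM hn hMn hg hq _ fun Φ h => holds_of K M Φ h).trans ?_
  refine mul_le_mul_of_nonneg_left (Finset.sum_le_sum fun i _ => ?_) (by positivity)
  refine mul_le_mul_of_nonneg_left ?_ (by positivity)
  unfold rate
  have hlog : 0 ≤ (1 + Real.log (2 * (g i : ℝ))) ^ 16 := by
    have : (1 + Real.log (2 * (g i : ℝ))) ^ 16 = ((1 + Real.log (2 * (g i : ℝ))) ^ 8) ^ 2 := by ring
    rw [this]
    positivity
  refine mul_le_mul_of_nonneg_left (min_le_min ?_ le_rfl) hlog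
  exact div_le_div_of_nonneg_right (weight_estimate_holds (K i) (D i) (hD1 i) (hD i))
    (Real.sqrt_nonneg _)

end Pool.Agent.Results.MP_f3836a_nt.AllCMFieldsInFibres
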