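import Pool.Agent.K3h9.SZ.Fin
import Pool.Agent.K3h98.TW.Main

/-!
# Soulé's formula for arithmetic schemes whose special fibres are generated by products of abelian
varieties with irreducible CM fields

Over an algebraic closure of the field with `p` elements each abelian variety is isogenous to the
reduction of an abelian variety of CM type (Honda, Tate). So an abelian variety over the field with
`p ^ a` elements is modelled by `RedAV`: a finite product of CM types `(E i, Φ i)` with Weil numbers
`π i ∈ E i` that satisfy the formula of Shimura and Taniyama; its cohomology of degree `n`, with
coefficients in an algebraically closed field `Ω`, consists of the alternating `n`-forms on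
`Ω ⊗ H_1`, on which the Frobenius endomorphism acts by `π`.

**Towers.** Let `Z` be an abelian variety over a finite field, with the factors `Z i`, of dimension
`g i`, and their CM fields `E i`, of degree `2 g i`. A set of factors is a tower (`IsTower`) if it is
obtained from a basis (`IsBase`: factors of total dimension at most five without exceptional pairs
(`IsExc`), or factors of dimension at most three such that any two of them whose CM fields have the same
Galois closure have Galois CM fields, or one of them is supersingular; the set may be empty) by
successive adjunctions of factors `Z i` such that

* (`IsNeat`) there are only the trivial multiplicative relations between the Frobenius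
  eigenvalues of `Z i`, the prime number `p` and roots of unity, and
* (`IsFree`) `E i` is free over the CM fields of the factors that have already been adjoined: there is
  no nonzero rational function on the set of the complex embeddings of `E i` which is odd (it changes
  its sign under complex conjugation) and invariant under all automorphisms of `ℂ` that are the identity
  on all conjugates of these CM fields.

The second part of the theorem (`TowerCriteria`, `tower_criteria` of `Pool.Agent.K3h98.TW`,
helper98) gives criteria. Call a CM field `E` irreducible if the space of the odd functions on its complex
embeddings has no proper nonzero subspace stable under the automorphisms of `ℂ`. A factor `Z i` that is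
not supersingular can be adjoined to a tower if

* `E i` is irreducible, and it is moved by some automorphism of `ℂ` that is the identity on all
  conjugates of the CM fields of the tower, or
* the dimension of `Z i` is an odd prime number `q`, `E i` contains no imaginary quadratic field, and the
  dimensions of the factors of the tower are less than `q`.

CM fields of degree `2 q` (`q` an odd prime number) without imaginary quadratic subfields, and CM fields
of degree `2 ^ n`, `n ≥ 1`, whose complex embeddings are permuted in one cycle by some automorphism of
`ℂ` (for instance cyclic extensions of `ℚ`, imaginary quadratic fields), are irreducible.

Let `𝒞` (`IsTowerAV`) be the class of the abelian varieties `Y` that are isogenous, over an algebraic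
closure, to a product of a supersingular abelian variety of any dimension and of powers, with any
exponents, of the factors of some `Z` all of whose factors form a tower. There are no assumptions on the
slopes.

`Homology Ω V` are data of motivic homology and of `ℓ`-adic homology of schemes over finite fields of
characteristic `p`. Let `𝒢` be the smallest class (`Generated`) of such schemes that contains those with
the homology groups of abelian varieties in `𝒞` (`IsTowerAbelian`), and those for which the conjecture of
Tate and Beilinson is known otherwise (`TB`; for instance all schemes of dimension at most one, Harder,
Quillen), that is closed under direct summands of finite sums of twists of motives, and that contains all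
of a closed subscheme `Z` of `X`, `X` and `X ∖ Z` if it contains two of them.

`Arith W` are data for arithmetic schemes (separated schemes `X : W` of finite type over `ℤ`): the
rational motivic homology groups `M X i j = H_i^M(X, ℚ(j)) = CH_j(X, i - 2 j) ⊗ ℚ` and the numbers
`pts X q` of the closed points with a residue field with `q` elements; the zeta function of `X` is the
meromorphic continuation of the Euler product of the `(1 - q ^ (-s)) ^ (- pts X q)` (`IsZeta`). Let `𝒜`
(`Class`) be the smallest class of arithmetic schemes that contains

* the schemes over finite fields, of all characteristics, in the classes `𝒢` (`IsTowerFibre`),
* the spectra of the rings of integers of all number fields (`IsNumberRing`),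
* the schemes whose motive, with rational coefficients, plus a finite sum of twists of motives of members,
  is a finite sum of twists of motives of members (`IsSum`: affine and projective bundles, blow-ups),
* all of a closed subscheme `Z` of `X`, `X` and `X ∖ Z` if it contains two of them.

**Theorem.** For all `X` in `𝒜` the groups `H_i^M(X, ℚ(n))` are finite-dimensional, for each `n` only
finitely many are not zero, the zeta function of `X` has a meromorphic continuation to `ℂ`, and its order
at the integer `n` is `∑_i (-1) ^ (i + 1) dim H_i^M(X, ℚ(n))`, for all integers `n` (`Soule`). So for the
members `X` which are regular, connected, flat and projective over `ℤ`, of Krull dimension `d`, the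
assertion of the question is true (`n = 0`; `H_i^M(X, ℚ(0)) = CH^d(X, i) ⊗ ℚ = H^(2 d - i)(X, ℚ(d))`):
`ord_(s = 0) ζ(X, s) = ∑_i (-1) ^ (i + 1) dim H^(2 d - i)(X, ℚ(d))`.

Known theorems that are used: for number rings Dirichlet, Quillen, Borel and Hecke, in `IsNumberRing`; for
schemes over finite fields Grothendieck, in `IsOverFinite`; for abelian varieties properties of the theory
of cycles (`IsChow`, `IsMotivic`: Tate, Markman, Kimura, Quillen). The passage from the Tate conjecture to
all degrees is due to Soulé, Geisser and Kahn.
-/

namespace Pool.Agent.Results.MP_f3836a_nt.IrreducibleTowersInFibres

open Pool.Agent.W495.TA Pool.Agent.W495.FM Pool.Agent.K3h98.TW Pool.Agent.K3h9.SZ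

/-- `X` is a scheme over a finite field in the class `𝒢`, which is generated by the abelian varieties
whose factors form towers and by schemes for which the conjecture of Tate and Beilinson is known
otherwise. -/
def IsTowerFibre {W : Type} (T : Arith W) (X : W) : Prop :=
  ∃ (p : ℕ) (_ : Fact p.Prime) (ν : PadicAlgCl p ≃+* ℂ) (Ω : Type) (_ : Field Ω) (_ : IsAlgClosed Ω)
    (_ : CharZero Ω) (V : Type) (H : Homology Ω V) (Y : V), IsHomology H ∧
      Generated H (fun Y => IsTowerAbelian p ν H Y ∨ TB H Y) Y ∧ IsOverFinite T H X Y

theorem soule_tower {W : Type} {T : Arith W} {X : W} (h : IsTowerFibre T X) : Soule T X := by
  obtain ⟨p, _, ν, Ω, _, _, _, V, H, Y, hH, hY, hX⟩ := h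
  refine soule_finite hH (tb_generated hH (fun Z hZ => ?_) hY) hX
  rcases hZ with hZ | hZ
  · exact tb_tower hH (Generated.base Z hZ)
  · exact hZ

/-- **Soulé's formula for the arithmetic schemes generated by the rings of integers of number fields and
by abelian varieties over finite fields whose factors form towers, and criteria for towers.** -/
theorem result :
    (∀ (W : Type) (T : Arith W), IsArith T → ∀ X : W, Class T (IsTowerFibre T) X → Soule T X) ∧
    TowerCriteria :=
  ⟨fun _ _ hT _ hX => soule_class hT (fun _ h => soule_tower h) hX, tower_criteria⟩

end Pool.Agent.Results.MP_f3836a_nt.IrreducibleTowersInFibres
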