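import Pool.Agent.K3h9.SZ.Fin
import Pool.Agent.K3h30.NS.Main

/-!
# Soulé's formula for arithmetic schemes whose special fibres are generated by the abelian varieties of
almost all isogeny classes in every Newton stratum

Fix a prime `p`, a nonempty finite set `κ`, dimensions `g i ≥ 1` and, for each `i`, a symmetric Newton
polygon with slopes `s i j` and `1 - s i j` (`j < g i`), where `0 ≤ s i j ≤ 1 / 2`, whose break points are
integral and which is not the supersingular one (`IsNewton (s i)`, `s i j < 1 / 2` for some `j`). By the
theorem of Honda and Tate `Stratum g s p a` is the set of the families `(A_i)` of isogeny classes of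
abelian varieties of dimension `g i` over the field with `q = p ^ a` elements with these Newton polygons,
given by their Frobenius polynomials `P i`.

`Arith W` are data for arithmetic schemes (separated schemes `X : W` of finite type over `ℤ`): the
rational motivic homology groups `M X i j = H_i^M(X, ℚ(j)) = CH_j(X, i - 2 j) ⊗ ℚ` and the numbers
`pts X q` of the closed points with a residue field with `q` elements; the zeta function of `X` is the
meromorphic continuation of the Euler product of the `(1 - q ^ (-s)) ^ (- pts X q)` (`IsZeta`). For a
family `P` of Frobenius polynomials let `𝒜` (`Class`) be the smallest class of arithmetic schemes that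
contains

* the schemes over finite fields of characteristic `p` in the class generated (`Generated`: direct
  summands of finite sums of twists of motives; all of `Z`, `X`, `X ∖ Z` if it contains two of them) by
  the abelian varieties `Y` each of whose factors is supersingular or, over an algebraic closure, a factor
  of some `A_i` (`IsAbelianOfPolys`), and by schemes for which the conjecture of Tate and Beilinson is
  known otherwise (`IsFibreOfPolys`),
* the schemes over finite fields of any characteristic for which the conjecture of Tate and Beilinson is
  known otherwise (`IsKnownFibre`; for instance, by the starting files, those generated by abelian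
  varieties of dimension at most five, and all schemes of dimension at most one),
* the spectra of the rings of integers of all number fields (`IsNumberRing`),
* the schemes whose motive, with rational coefficients, plus a finite sum of twists of motives of members,
  is a finite sum of twists of motives of members (`IsSum`: affine and projective bundles, blow-ups),
* all of a closed subscheme `Z` of `X`, `X` and `X ∖ Z` if it contains two of them.

The family is good (`Holds p a P`) if for all `X` in `𝒜` Soulé's formula holds at all integers (`Soule`):
the groups `H_i^M(X, ℚ(n))` are finite-dimensional, for each `n` only finitely many are not zero, the zeta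
function of `X` has a meromorphic continuation to `ℂ`, and its order at the integer `n` is
`∑_i (-1) ^ (i + 1) dim H_i^M(X, ℚ(n))`; in particular for the regular, connected, flat and projective
members `X` of Krull dimension `d` the assertion of the question is true (`n = 0`;
`H_i^M(X, ℚ(0)) = CH^d(X, i) ⊗ ℚ = H^(2 d - i)(X, ℚ(d))`):
`ord_(s = 0) ζ(X, s) = ∑_i (-1) ^ (i + 1) dim H^(2 d - i)(X, ℚ(d))`.

**Theorem.** If `a` tends to infinity, the number of the families in the stratum tends to infinity, and
the proportion of the good families tends to one.

Known theorems that are used: for number rings Dirichlet, Quillen, Borel and Hecke, in `IsNumberRing`; for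
schemes over finite fields Grothendieck, in `IsOverFinite`; for abelian varieties properties of the theory
of cycles (`IsChow`, `IsMotivic`: Tate, Kimura, Quillen). The passage from the Tate conjecture to all
degrees is due to Soulé, Geisser and Kahn.
-/

namespace Pool.Agent.Results.MP_f3836a_nt.NewtonStrataInFibres

open Polynomial Pool.Agent.K3h30.NS Pool.Agent.W495.TA Pool.Agent.W495.FM Pool.Agent.K3h9.SZ

/-- `X` is a scheme over a finite field of characteristic `p` in the class generated by the abelian
varieties whose factors are supersingular or factors of the abelian varieties with the Frobenius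
polynomials `P i`, and by schemes for which the conjecture of Tate and Beilinson is known otherwise. -/
def IsFibreOfPolys {κ : Type} (p : ℕ) [Fact p.Prime] (a : ℕ) (P : κ → ℤ[X]) {W : Type} (T : Arith W)
    (X : W) : Prop :=
  ∃ (ν : PadicAlgCl p ≃+* ℂ) (Ω : Type) (_ : Field Ω) (_ : IsAlgClosed Ω) (_ : CharZero Ω) (V : Type)
    (H : Homology Ω V) (Y : V), IsHomology H ∧
      Generated H (fun Y => IsAbelianOfPolys ν a P H Y ∨ TB H Y) Y ∧ IsOverFinite T H X Y

/-- `X` is a scheme over a finite field for which the conjecture of Tate and Beilinson is known. -/
def IsKnownFibre {W : Type} (T : Arith W) (X : W) : Prop :=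
  ∃ (Ω : Type) (_ : Field Ω) (_ : CharZero Ω) (V : Type) (H : Homology Ω V) (Y : V), IsHomology H ∧
    TB H Y ∧ IsOverFinite T H X Y

/-- Soulé's formula for the class of arithmetic schemes generated by rings of integers and by the
schemes over finite fields above. -/
def Holds {κ : Type} (p : ℕ) [Fact p.Prime] (a : ℕ) (P : κ → ℤ[X]) : Prop :=
  ∀ (W : Type) (T : Arith W), IsArith T → ∀ X : W,
    Class T (fun X => IsFibreOfPolys p a P T X ∨ IsKnownFibre T X) X → Soule T X

theorem holds_of {κ : Type} {p : ℕ} [Fact p.Prime] {a : ℕ} {P : κ → ℤ[X]}
    (h : ∀ (ν : PadicAlgCl p ≃+* ℂ) (Y : RedAV p ν), OfPolys a P Y → ∃ Z : RedAV p ν,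
      Pool.Agent.TH117.BL.HasElementaryRelations Z ∧
        Pool.Agent.TH117.BL.IsPowersTimesSupersingular Z Y) : Holds p a P := by
  intro W T hT X hX
  have key : ∀ X, (IsFibreOfPolys p a P T X ∨ IsKnownFibre T X) → Soule T X := by
    rintro X (⟨ν, Ω, _, _, _, V, H, Y, hH, hY, hX⟩ | ⟨Ω, _, _, V, H, Y, hH, hY, hX⟩)
    · refine soule_finite hH (tb_generated hH (fun Z hZ => ?_) hY) hX
      rcases hZ with hZ | hZ
      · exact tb_polys (h ν) hH (Generated.base Z hZ)
      · exact hZ
    · exact soule_finite hH hY hX
  exact soule_class hT key hX

/-- **Soulé's formula for the arithmetic schemes generated by the rings of integers of number fields and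
by the abelian varieties of almost all isogeny classes in every Newton stratum.** -/
theorem result {κ : Type} [Fintype κ] [Nonempty κ] (p : ℕ) [Fact p.Prime]
    -- dimensions and Newton polygons
    (g : κ → ℕ) (hg : ∀ i, 1 ≤ g i) (s : ∀ i, Fin (g i) → ℚ) (hs : ∀ i, IsNewton (s i))
    (hss : ∀ i, ∃ j, s i j < 1 / 2)
    -- a number of families of isogeny classes, a proportion of exceptions
    (N : ℕ) (ε : ℝ) (hε : 0 < ε) :
    ∃ a₀ : ℕ, ∀ a, a₀ ≤ a →
      (Stratum g s p a).Finite ∧ N ≤ (Stratum g s p a).ncard ∧
      ({P ∈ Stratum g s p a | ¬ Holds p a P}.ncard : ℝ) ≤ ε * ((Stratum g s p a).ncard : ℝ) :=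
  almost_all p g hg s hs hss (Holds p) (fun _ _ h => holds_of h) N ε hε

end Pool.Agent.Results.MP_f3836a_nt.NewtonStrataInFibres
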