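import Pool.Agent.K3h9.SZ.Fin
import Pool.Agent.R937.PZ.Mot

/-!
# Soulé's formula for the orders of the zeta functions of arithmetic schemes whose generic fibres are
made of Artin-Tate motives and whose special fibres are generated by abelian varieties

`Arith W` are data for arithmetic schemes (separated schemes `X : W` of finite type over `ℤ`): the
rational motivic homology groups `M X i j = H_i^M(X, ℚ(j)) = CH_j(X, i - 2 j) ⊗ ℚ`, where `j` is the
absolute dimension of the cycles, and the numbers `pts X q` of the closed points with a residue field
with `q` elements. The zeta function of `X` is the meromorphic continuation of the Euler product of the
`(1 - q ^ (-s)) ^ (- pts X q)` (`IsZeta`). For regular `X` of pure Krull dimension `d` the group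
`H_i^M(X, ℚ(j))` is the motivic cohomology group `H^(2 d - i)(X, ℚ(d - j))`.

**The special fibres.** Over an algebraic closure of the field with `p` elements each abelian variety is
isogenous to the reduction of an abelian variety of CM type (Honda, Tate). So an abelian variety over the
field with `p ^ a` elements is modelled by `RedAV`: a finite product of CM types `(E i, Φ i)` with Weil
numbers `π i ∈ E i` that satisfy the formula of Shimura and Taniyama; its cohomology of degree `n`, with
coefficients in an algebraically closed field `Ω`, consists of the alternating `n`-forms on `Ω ⊗ H_1`, on
which the Frobenius endomorphism acts by `π`. Let `𝒞` be the class of the abelian varieties `Y`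
(`IsGoodAVP`, any Newton polygons) of dimension at most five, and of those that are isogenous, over an
algebraic closure, to a product of a supersingular abelian variety of any dimension and of powers of the
factors of an abelian variety `Z` such that the factors of `Z` have dimension at most three, and two
factors of dimension three with CM fields with the same Galois closure are isogenous, or have Galois CM
fields, or one of them is supersingular, or they are both not ordinary, with `p`-ranks that are not one
and two (`SmallFactorsP`).

`Homology Ω V` are data of motivic homology and of `ℓ`-adic homology (coefficients extended to `Ω`) of
schemes over finite fields of characteristic `p`. Let `𝒢` be the smallest class (`Generated`) of such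
schemes that contains those with the homology groups of abelian varieties in `𝒞` (`IsGoodAbelianP`), and
those for which the conjecture of Tate and Beilinson is known otherwise (`TB`; for instance all schemes
of dimension at most one, Harder, Quillen), that is closed under direct summands of finite sums of twists
of motives, and that contains all of a closed subscheme `Z` of `X`, `X` and `X ∖ Z` if it contains two
of them.

**The class of arithmetic schemes** (`Class`). It is the smallest class that contains

* the schemes over finite fields, of all characteristics, in the classes `𝒢` (`IsGoodFibre`),
* the spectra of the rings of integers of all number fields (`IsNumberRing`),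
* the schemes whose motive, with rational coefficients, plus a finite sum of twists of motives of members,
  is a finite sum of twists of motives of members (`IsSum`: affine and projective bundles, blow-ups),
* all of a closed subscheme `Z` of `X`, `X` and `X ∖ Z` if it contains two of them.

It contains for instance every scheme that is projective and flat over a ring of integers, whose generic
fibre is a split toric variety, or a split flag variety, or a blow-up of such a variety along such
varieties, if its finitely many bad fibres are in the classes `𝒢`; and the blow-up of a smooth member
along a smooth member of `𝒢`, for example the blow-up of the projective space over `ℤ` along a product of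
elliptic curves, of any dimension, in its fibre over `p`.

**Theorem.** For all `X` in this class the groups `H_i^M(X, ℚ(n))` are finite-dimensional, for each `n`
only finitely many are not zero, the zeta function of `X` has a meromorphic continuation to `ℂ`, and its
order at the integer `n` is `∑_i (-1) ^ (i + 1) dim H_i^M(X, ℚ(n))`, for all integers `n` (`Soule`). So for
the members `X` which are regular, connected, flat and projective over `ℤ`, of Krull dimension `d`, the
assertion of the question is true (`n = 0`; `H_i^M(X, ℚ(0)) = CH^d(X, i) ⊗ ℚ = H^(2 d - i)(X, ℚ(d))`):
`ord_(s = 0) ζ(X, s) = ∑_i (-1) ^ (i + 1) dim H^(2 d - i)(X, ℚ(d))`.

Known theorems that are used. For number rings: Dirichlet, Quillen, Borel (ranks of the `K`-groups) and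
Hecke (orders of the Dedekind zeta functions at the integers), in `IsNumberRing`. For schemes over finite
fields: Grothendieck (the zeta function in terms of `ℓ`-adic cohomology with compact supports), in
`IsOverFinite`, and for the abelian varieties properties of the theory of cycles, in `IsGoodAbelianP`
(`IsChowS`, `IsMotivic`): Poincaré duality, the formal properties of correspondences, the nilpotence of
homologically trivial correspondences (Kimura), the operation of the Frobenius endomorphism on higher Chow
groups, the vanishing of the higher rational `K`-groups of a finite field (Quillen), and the algebraicity
of the Tate classes generated by divisors, by the reductions of split Weil classes on abelian fourfolds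
and sixfolds of CM type and by the reductions of Hodge classes on products of elliptic curves and abelian
surfaces with complex multiplication (Tate, Markman, Ramón Marí).

The Tate conjecture for the abelian varieties in `𝒞` is the content of the starting files
(`MP_ee618e_ag.SurfacesAndDimensionFive` and `MP_2ce3e7_ag`/`MP_de89cc_ag.NonOrdinaryThreefolds`), and
`tb_goodP` is the starting theorem on the class `𝒢`; the passage from the Tate conjecture to all degrees
is due to Soulé, Geisser and Kahn.
-/

namespace Pool.Agent.Results.MP_f3836a_nt.SmallFactorsInFibres

open Pool.Agent.W495.FM Pool.Agent.R937.PG Pool.Agent.K3h9.SZ

/-- `X` is a scheme over a finite field in the class `𝒢`, which is generated by the abelian varieties in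
the class `𝒞` and by the schemes for which the conjecture of Tate and Beilinson is known otherwise. -/
def IsGoodFibre {W : Type} (T : Arith W) (X : W) : Prop :=
  ∃ (p : ℕ) (_ : Fact p.Prime) (ν : PadicAlgCl p ≃+* ℂ) (Ω : Type) (_ : Field Ω) (_ : IsAlgClosed Ω)
    (_ : CharZero Ω) (V : Type) (H : Homology Ω V) (Y : V), IsHomology H ∧
      Generated H (fun Y => IsGoodAbelianP p ν H Y ∨ TB H Y) Y ∧ IsOverFinite T H X Y

/-- **Soulé's formula for the arithmetic schemes generated by the rings of integers of number fields and
by the schemes over finite fields in the classes `𝒢`.** -/
theorem result (W : Type) (T : Arith W) (hT : IsArith T) (X : W) (hX : Class T (IsGoodFibre T) X) :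
    Soule T X :=
  soule_class hT (fun _ ⟨_, _, _, _, _, _, _, _, _, _, hH, hY, hX⟩ => soule_finite hH
    (tb_generated hH (fun Z hZ => hZ.elim (fun h => tb_goodP hH (.base Z h)) id) hY) hX) hX

end Pool.Agent.Results.MP_f3836a_nt.SmallFactorsInFibres
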